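import Pool.Agent.H730Z.OS.Main

set_option autoImplicit false

namespace Pool.Agent.Results.MP_783066_gt.NotHomotopical

open Pool.Agent.H730Z.OS

/-- The smash product of orthogonal spectra is not fully homotopical: there are orthogonal spectra
`X, Y, Y'`, smash products `Z = X ∧ Y`, `Z' = X ∧ Y'` (universal bimorphisms `b`, `b'`) and a stable
equivalence `f : Y → Y'` such that the induced morphism `g = X ∧ f` is not a stable equivalence. -/
theorem result : ∃ (X Y Y' Z Z' : OSp) (f : Hom Y Y') (b : Bimor X Y Z) (b' : Bimor X Y' Z')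
    (g : Hom Z Z'), IsSmash b ∧ IsSmash b' ∧
      (∀ p q n h x y, g.f n (b.b p q n h x y) = b'.b p q n h x (f.f q y)) ∧
      IsStableEquiv f ∧ ¬ IsStableEquiv g :=
  Pool.Agent.H730Z.OS.main

end Pool.Agent.Results.MP_783066_gt.NotHomotopical
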